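import Pool.Agent.Q137.UO.WOrd

/-!
# The abelian varieties in the cohomology of cubic hypersurfaces

The part of weight `2a - 1` of the cohomology with compact supports of a hypersurface `T(x, y, z) = 1` of a
trilinear form in `a` variables `x` is a Tate twist of `h^1` of an abelian variety `A_{T,n}`. Every abelian
variety is, up to isogeny, a direct factor of a finite product of abelian varieties `A_{T,n}`.
-/

set_option autoImplicit false

open CategoryTheory CategoryTheory.Limits AlgebraicGeometry Pool.Agent.Y116.UV Pool.Agent.Z125.UN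
  Pool.Agent.Q193.LT Pool.Agent.Q49.WU

universe v u w

namespace Pool.Agent.Q137.UO

attribute [local instance] Abelian.hasFiniteBiproducts

variable {k : Type} [Field k] {M : Type u} [Category.{v} M] [Abelian M]

/-- `P` is a direct factor of `Q`. -/
def IsFactor (P Q : M) : Prop := ∃ (i : P ⟶ Q) (r : Q ⟶ P), i ≫ r = 𝟙 P

lemma IsFactor.trans {P Q R : M} (h1 : IsFactor P Q) (h2 : IsFactor Q R) : IsFactor P R := by
  obtain ⟨i, r, h⟩ := h1
  obtain ⟨i', r', h'⟩ := h2
  exact ⟨i ≫ i', r' ≫ r, by rw [Category.assoc, reassoc_of% h', h]⟩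

lemma IsFactor.of_iso {P Q : M} (e : P ≅ Q) : IsFactor P Q := ⟨e.hom, e.inv, e.hom_inv_id⟩

lemma IsFactor.sum {J : Type} [Finite J] {P Q : J → M} (h : ∀ j, IsFactor (P j) (Q j)) :
    IsFactor (⨁ P) (⨁ Q) := by
  choose i r e using h
  refine ⟨biproduct.map i, biproduct.map r, ?_⟩
  refine biproduct.hom_ext' _ _ fun j => ?_
  rw [← Category.assoc, biproduct.ι_map, Category.assoc, biproduct.ι_map, ← Category.assoc, e,
    Category.id_comp, Category.comp_id]

lemma IsFactor.twist {P Q : M} (h : IsFactor P Q) (F : M ⥤ M) : IsFactor (F.obj P) (F.obj Q) := by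
  obtain ⟨i, r, e⟩ := h
  exact ⟨F.map i, F.map r, by rw [← F.map_comp, e, F.map_id]⟩

/-- The known relations between abelian varieties `A` over `k`, the objects `h1 A`, and the part of
weight one of the theory `D` (for `w = 1`).

* `albanese`: `D.H 0 n Y` is `h^1` of the Albanese variety of `Y` for `n = 1`, and zero otherwise, for
  smooth projective `Y`;
* `occurs`: every `h1 A` is a direct factor of a `D.H 0 n Y`, `Y` smooth and projective (`Y = A`);
* `point`: the cohomology of the point has no part of odd weight;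
* `sum`: finite products of abelian varieties;
* `closed`: every direct factor of an object `h1 A` is isomorphic to some `h1 B` (`B` is an abelian
  subvariety of `A`);
* `weight`: the objects `h1 A` and `D.H N n X (N)` have the weight one; so if such an object `P` is a
  direct factor of a finite direct sum of Tate twists of objects `h1 (B_j)`, it is a direct factor of
  `⨁_j h1 (B_j)` (the terms which are not of weight one can be omitted, and the others are not
  twisted). -/
structure IsAV (D : WeightData k M) {𝒜 : Type w} (h1 : 𝒜 → M) : Prop where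
  albanese : ∀ (Y : Sch k) (n : ℤ), SmoothProj Y → ∃ A, Nonempty (h1 A ≅ D.H 0 n Y)
  occurs : ∀ A, ∃ (Y : Sch k) (n : ℤ), SmoothProj Y ∧ IsFactor (h1 A) (D.H 0 n Y)
  point : ∀ N n, IsZero (D.H N n (aff k k))
  sum : ∀ (J : Type) [Finite J] (B : J → 𝒜), ∃ A, Nonempty (h1 A ≅ ⨁ fun j => h1 (B j))
  closed : ∀ {A : 𝒜} {P : M}, IsFactor P (h1 A) → ∃ B, Nonempty (h1 B ≅ P)
  weight : ∀ (P : M), ((∃ A, P = h1 A) ∨
      ∃ (N n : ℤ) (X : Sch k), FT True X ∧ P = (D.tw N).obj (D.H N n X)) →
    ∀ (J : Type) [Finite J] (B : J → 𝒜) (t : J → ℤ),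
      IsFactor P (⨁ fun j => (D.tw (t j)).obj (h1 (B j))) → IsFactor P (⨁ fun j => h1 (B j))

/-- The object attached to a hypersurface `T = 1`: the part of weight `2a - 1` of `H^n_c`, twisted by
`a - 1`. -/
noncomputable def formObj (D : WeightData k M) {a b c : ℕ} (T : Fin a → Fin b → Fin c → k) (n : ℤ) :
    M := (D.tw (a - 1)).obj (D.H (a - 1) n (hypS T))

/-- The same for a tripartite hypergraph. -/
noncomputable def graphObj (D : WeightData k M) {a b c : ℕ} (H : Finset (Fin a × Fin b × Fin c))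
    (n : ℤ) : M := (D.tw (a - 1)).obj (D.H (a - 1) n (tripS k H))

/-- `h1 A` is a finite direct sum of objects attached to hypersurfaces `T = 1`. -/
def OfForms1 (D : WeightData k M) {𝒜 : Type w} (h1 : 𝒜 → M) (A : 𝒜) : Prop :=
  ∃ (J : Type) (_ : Finite J) (a b c : J → ℕ) (T : ∀ j, Fin (a j) → Fin (b j) → Fin (c j) → k)
    (n : J → ℤ), Nonempty (h1 A ≅ ⨁ fun j => formObj D (T j) (n j))

/-- `h1 A` is a finite direct sum of objects attached to tripartite hypergraphs. -/
def OfGraphs1 (D : WeightData k M) {𝒜 : Type w} (h1 : 𝒜 → M) (A : 𝒜) : Prop :=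
  ∃ (J : Type) (_ : Finite J) (a b c : J → ℕ)
    (H : ∀ j, Finset (Fin (a j) × Fin (b j) × Fin (c j))) (n : J → ℤ),
      Nonempty (h1 A ≅ ⨁ fun j => graphObj D (H j) (n j))

section

variable {D : WeightData k M} (h : IsWMotives D) {𝒜 : Type w} {h1 : 𝒜 → M} (hA : IsAV D h1)

include h hA

/-- An object of weight one that is generated by smooth projective schemes in weight one is `h1` of an
abelian variety. -/
lemma exists_av {P : M} (hP : (∃ A, P = h1 A) ∨
      ∃ (N n : ℤ) (X : Sch k), FT True X ∧ P = (D.tw N).obj (D.H N n X))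
    (hf : FactorOfSum (zeroData D) (fun N' => OfPt D N' ∨ OfProjW D 0 N') P) :
    ∃ A, Nonempty (h1 A ≅ P) := by
  obtain ⟨J, _, N', t, i, r, hG, hir⟩ := hf.retract
  have hta := h.weight.twAdditive
  have h2 : ∀ j, ∃ B, IsFactor (N' j) (h1 B) := by
    intro j
    rcases hG j with ⟨N, n, e⟩ | ⟨Y, n, hY, e⟩
    · obtain ⟨B, -⟩ := hA.sum PEmpty (fun x => x.elim)
      have h3 : IsZero (N' j) := by rw [e]; exact hA.point N n
      exact ⟨B, 0, 0, h3.eq_of_src _ _⟩
    · obtain ⟨B, ⟨e'⟩⟩ := hA.albanese Y n hY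
      refine ⟨B, ?_⟩
      rw [e]
      exact IsFactor.of_iso e'.symm
  choose B hB using h2
  have h3 : IsFactor P (⨁ fun j => (D.tw (t j)).obj (h1 (B j))) := by
    refine IsFactor.trans ⟨i, r, hir⟩ (IsFactor.sum fun j => ?_)
    exact (hB j).twist (D.tw (t j))
  obtain ⟨C, ⟨eC⟩⟩ := hA.sum J B
  exact hA.closed ((hA.weight P hP J B t h3).trans (IsFactor.of_iso eC.symm))

/-- The objects attached to trilinear forms are `h1` of abelian varieties. -/
theorem form_av {a b c : ℕ} (T : Fin a → Fin b → Fin c → k) (n : ℤ) :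
    ∃ A, Nonempty (h1 A ≅ formObj D T n) := by
  refine exists_av h hA (Or.inr ⟨a - 1, n, hypS T, ft_aff True, rfl⟩) ?_
  have hc := zero_compact h.weight
  have h2 := (sp_weight_iff h.weight h.generated (tw_gen h (fun N' => OfPt D N' ∨ OfProjW D 0 N'))
    (fun N' n => FactorOfSum.self hc (Or.inl ⟨N', n, rfl⟩)) 0).mp
    (fun Y hY n => FactorOfSum.self hc (Or.inr ⟨Y, n, hY, rfl⟩)) a b c T n
  rw [zero_add] at h2
  exact (gen_serre hc h.semisimple).twist _ _ h2

/-- The objects attached to tripartite hypergraphs are `h1` of abelian varieties. -/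
theorem graph_av (hF : Frac k) {a b c : ℕ} (H : Finset (Fin a × Fin b × Fin c)) (n : ℤ) :
    ∃ A, Nonempty (h1 A ≅ graphObj D H n) := by
  refine exists_av h hA (Or.inr ⟨a - 1, n, tripS k H, ft_aff True, rfl⟩) ?_
  have hc := zero_compact h.weight
  have h2 := (sp_weight_graph h.weight h.generated
    (tw_gen h (fun N' => OfPt D N' ∨ OfProjW D 0 N'))
    (fun N' n => FactorOfSum.self hc (Or.inl ⟨N', n, rfl⟩)) hF 0).mp
    (fun Y hY n => FactorOfSum.self hc (Or.inr ⟨Y, n, hY, rfl⟩)) a b c H n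
  rw [zero_add] at h2
  exact (gen_serre hc h.semisimple).twist _ _ h2

/-- A finite family of objects: if the `h1 A` is generated by them, it is a direct factor of their
direct sum. -/
lemma factor_of_gen {I : Type} {O : I → M} (i0 : I) (hO : ∀ i, ∃ B, Nonempty (h1 B ≅ O i)) (A : 𝒜)
    (hf : ∀ (Y : Sch k) (n : ℤ), SmoothProj Y →
      FactorOfSum (zeroData D) (fun N' => OfPt D N' ∨ ∃ i, N' = O i) (D.H 0 n Y)) :
    ∃ (J : Type) (_ : Finite J) (f : J → I) (B : 𝒜), Nonempty (h1 B ≅ ⨁ fun j => O (f j)) ∧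
      IsFactor (h1 A) (h1 B) := by
  obtain ⟨Y, n, hY, hAY⟩ := hA.occurs A
  obtain ⟨J, _, N', t, i, r, hG, hir⟩ := (hf Y n hY).retract
  have h2 : ∀ j, ∃ s : I, IsFactor (N' j) (O s) := by
    intro j
    rcases hG j with ⟨N, n, e⟩ | ⟨s, e⟩
    · have h3 : IsZero (N' j) := by rw [e]; exact hA.point N n
      exact ⟨i0, 0, 0, h3.eq_of_src _ _⟩
    · exact ⟨s, by rw [e]; exact IsFactor.of_iso (Iso.refl _)⟩
  choose f hf' using h2
  choose B hB using hO
  have h3 : IsFactor (h1 A) (⨁ fun j => (D.tw (t j)).obj (h1 (B (f j)))) := by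
    refine hAY.trans (IsFactor.trans ⟨i, r, hir⟩ (IsFactor.sum fun j => ?_))
    exact ((hf' j).trans (IsFactor.of_iso (hB (f j)).some.symm)).twist (D.tw (t j))
  have h4 := hA.weight (h1 A) (Or.inl ⟨A, rfl⟩) J (fun j => B (f j)) t h3
  obtain ⟨C, ⟨eC⟩⟩ := hA.sum J fun j => B (f j)
  refine ⟨J, inferInstance, f, C, ⟨eC ≪≫ ?_⟩, h4.trans (IsFactor.of_iso eC.symm)⟩
  exact biproduct.mapIso fun j => (hB (f j)).some

/-- Every abelian variety is a direct factor of one attached to trilinear forms. -/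
theorem factor_forms (A : 𝒜) : ∃ B, OfForms1 D h1 B ∧ IsFactor (h1 A) (h1 B) := by
  have hc := zero_compact h.weight
  let I := Σ (a b c : ℕ), (Fin a → Fin b → Fin c → k) × ℤ
  let O : I → M := fun x => formObj D x.2.2.2.1 x.2.2.2.2
  obtain ⟨J, _, f, B, hB, hAB⟩ := factor_of_gen h hA (O := O)
    ⟨0, 0, 0, fun i => i.elim0, 0⟩ (fun x => form_av h hA _ _) A fun Y n hY => by
      refine (sp_weight_iff h.weight h.generated (tw_gen h _) ?_ 0).mpr ?_ Y hY n
      · exact fun N' n => FactorOfSum.self hc (Or.inl ⟨N', n, rfl⟩)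
      · intro a b c T n
        rw [zero_add]
        exact (tw_gen h _).untwist h.weight (a - 1) _
          (FactorOfSum.self hc (Or.inr ⟨⟨a, b, c, T, n⟩, rfl⟩))
  exact ⟨B, ⟨J, inferInstance, fun j => (f j).1, fun j => (f j).2.1, fun j => (f j).2.2.1,
    fun j => (f j).2.2.2.1, fun j => (f j).2.2.2.2, hB⟩, hAB⟩

/-- Over a prime field: every abelian variety is a direct factor of one attached to hypergraphs. -/
theorem factor_graphs (hF : Frac k) (A : 𝒜) :
    ∃ B, OfGraphs1 D h1 B ∧ IsFactor (h1 A) (h1 B) := by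
  have hc := zero_compact h.weight
  let I := Σ (a b c : ℕ), (Finset (Fin a × Fin b × Fin c)) × ℤ
  let O : I → M := fun x => graphObj D x.2.2.2.1 x.2.2.2.2
  obtain ⟨J, _, f, B, hB, hAB⟩ := factor_of_gen h hA (O := O)
    ⟨0, 0, 0, ∅, 0⟩ (fun x => graph_av h hA hF _ _) A fun Y n hY => by
      refine (sp_weight_graph h.weight h.generated (tw_gen h _) ?_ hF 0).mpr ?_ Y hY n
      · exact fun N' n => FactorOfSum.self hc (Or.inl ⟨N', n, rfl⟩)
      · intro a b c H n
        rw [zero_add]
        exact (tw_gen h _).untwist h.weight (a - 1) _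
          (FactorOfSum.self hc (Or.inr ⟨⟨a, b, c, H, n⟩, rfl⟩))
  exact ⟨B, ⟨J, inferInstance, fun j => (f j).1, fun j => (f j).2.1, fun j => (f j).2.2.1,
    fun j => (f j).2.2.2.1, fun j => (f j).2.2.2.2, hB⟩, hAB⟩

end

end Pool.Agent.Q137.UO
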