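import Pool.Agent.Q49.WU.Pair

/-!
# One codimension at a time
-/

set_option autoImplicit false

open CategoryTheory CategoryTheory.Limits AlgebraicGeometry Pool.Agent.Y116.UV Pool.Agent.Z125.UN
  Pool.Agent.Q193.LT Pool.Agent.Q49.WU

universe w w'

namespace Pool.Agent.Q137.UO

variable {k : Type} [Field k] {E : Type w'} [CommRing E] {C : PairData.{w} k (ℤ × ℤ) E}
  (hw : GenAt C Prod.fst) (hC : IsWeightPair C) (h1 : BijAll C (aff k k))

include hw hC h1

/-- Trilinear forms, one codimension. -/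
theorem codim_forms (N : ℤ) : (∀ Y : Sch k, SmoothProj Y → BijAt C Prod.fst N Y) ↔
    ∀ (a b c : ℕ) (T : Fin a → Fin b → Fin c → k), BijAt C Prod.fst (N + (a - 1)) (hypS T) :=
  sp_at_iff hw hC graded_weight h1 N

/-- Hypergraphs, one codimension. -/
theorem codim_graphs (hk : Frac k) (N : ℤ) :
    (∀ Y : Sch k, SmoothProj Y → BijAt C Prod.fst N Y) ↔
      ∀ (a b c : ℕ) (H : Finset (Fin a × Fin b × Fin c)),
        BijAt C Prod.fst (N + (a - 1)) (tripS k H) :=
  sp_at_graph hw hC graded_weight h1 hk N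

/-- If the maps are bijective in codimension at most `N₀` for smooth projective schemes, they are
bijective in index at most `N₀ + a - 1` for the hypersurfaces `T = 1` with `a` variables `x`. -/
theorem low_forms {N₀ : ℤ} (low : ∀ N : ℤ, N ≤ N₀ → ∀ Y : Sch k, SmoothProj Y →
    BijAt C Prod.fst N Y) {a b c : ℕ} (T : Fin a → Fin b → Fin c → k) {m : ℤ}
    (hm : m ≤ N₀ + (a - 1)) : BijAt C Prod.fst m (hypS T) := by
  have h2 := (codim_forms hw hC h1 (m - (a - 1))).1 (low _ (by linarith)) a b c T
  rwa [sub_add_cancel] at h2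

end Pool.Agent.Q137.UO
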