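import Pool.Agent.Q193.LT.Sums
import Pool.Agent.Q193.LT.Crit

/-!
# Places with a given property of motives (for instance ordinary places)

To every motive `N` a set `ord N` of places is attached, to every scheme `X` of finite type the set
`places X` of the places which, up to finitely many, belong to `ord N` for all the motives `N` of the
cohomology with compact supports of `X`. A property `L` of sets of places (of being large) is true for all
smooth projective schemes if and only if it is true for the intersections of finitely many of the sets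
`places X`, `X` a cubic hypersurface `T(x, y, z) = 1`.
-/

set_option autoImplicit false

open CategoryTheory CategoryTheory.Limits AlgebraicGeometry Pool.Agent.Y116.UV Pool.Agent.Z125.UN
  Pool.Agent.Q193.LT

universe v u

namespace Pool.Agent.Q137.UO

/-- Sets of places for motives and for schemes. -/
structure PlaceData (k : Type) [Field k] (M : Type u) (V : Type) where
  /-- the places with the property for the motive `N` -/
  ord : M → Set V
  /-- the places with the property for the scheme `X` -/
  places : Sch k → Set V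

section

attribute [local instance] Abelian.hasFiniteBiproducts

/-- The standard properties; all inclusions are up to finitely many places.

* `factor`: a place for `N'` is a place for every direct factor `N` of `N'`;
* `sum`: a place for all `N_j` is a place for a finite direct sum of Tate twists of the `N_j`;
* `scheme`: the places for `X` are the places for all `H^i_c(X)`;
* `point`, `zero`: almost all places are places for the point `Spec k` and for the smooth projective
  schemes of dimension at most `0`;
* `union`: for smooth projective schemes `Y_j` there is a smooth projective scheme `X`, of dimension at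
  most `n` if this is true for the `Y_j`, such that the places for `X` are places for all the `Y_j` (the
  disjoint union). -/
structure IsPlace {k : Type} [Field k] {M : Type u} [Category.{v} M] [Abelian M]
    (D : CompactData k M) {V : Type} (O : PlaceData k M V) : Prop where
  factor : ∀ {N N' : M} (i : N ⟶ N') (r : N' ⟶ N), i ≫ r = 𝟙 N → (O.ord N' \ O.ord N).Finite
  sum : ∀ (J : Type) [Finite J] (N : J → M) (a : J → ℤ),
    ((⋂ j, O.ord (N j)) \ O.ord (⨁ fun j => (D.tw (a j)).obj (N j))).Finite
  scheme : ∀ X : Sch k, FT True X → (∀ i, (O.places X \ O.ord (D.H i X)).Finite) ∧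
    ∃ I : Finset ℤ, ((⋂ i ∈ I, O.ord (D.H i X)) \ O.places X).Finite
  point : (Set.univ \ O.places (aff k k)).Finite
  zero : ∀ Y : Sch k, SmoothProj Y → topologicalKrullDim Y.left ≤ (0 : ℕ) →
    (Set.univ \ O.places Y).Finite
  union : ∀ (J : Type) [Finite J] (Y : J → Sch k), (∀ j, SmoothProj (Y j)) → ∃ X : Sch k,
    SmoothProj X ∧ (∀ n : ℕ, (∀ j, topologicalKrullDim (Y j).left ≤ n) →
      topologicalKrullDim X.left ≤ n) ∧ ∀ j, (O.places X \ O.places (Y j)).Finite

end

/-- A property of sets of places that is inherited by larger sets and is not changed by the omission of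
finitely many places. -/
structure Large {V : Type} (L : Set V → Prop) : Prop where
  mono : ∀ {S T : Set V}, L S → S ⊆ T → L T
  cut : ∀ {S F : Set V}, L S → F.Finite → L (S \ F)

variable {V : Type} {L : Set V → Prop}

lemma Large.of_diff (hL : Large L) {S T : Set V} (h : L S) (hST : (S \ T).Finite) : L T :=
  hL.mono (hL.cut h hST) fun x hx => by
    by_contra hxT
    exact hx.2 ⟨hx.1, hxT⟩

lemma diff_trans {S T U : Set V} (h1 : (S \ T).Finite) (h2 : (T \ U).Finite) : (S \ U).Finite := by
  refine (h1.union h2).subset fun x hx => ?_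
  by_cases hxT : x ∈ T
  · exact Or.inr ⟨hxT, hx.2⟩
  · exact Or.inl ⟨hx.1, hxT⟩

lemma diff_iInter {J : Type*} [Finite J] {S : Set V} {T : J → Set V}
    (h : ∀ j, (S \ T j).Finite) : (S \ ⋂ j, T j).Finite := by
  rw [Set.sdiff_iInter]
  exact Set.finite_iUnion h

lemma diff_biInter {J : Type*} (I : Finset J) {S : Set V} {T : J → Set V}
    (h : ∀ j ∈ I, (S \ T j).Finite) : (S \ ⋂ j ∈ I, T j).Finite := by
  have h1 : (S \ ⋂ j : I, T j).Finite := diff_iInter fun j => h j.1 j.2
  refine h1.subset fun x hx => ⟨hx.1, fun h2 => hx.2 ?_⟩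
  rw [Set.mem_iInter₂]
  intro j hj
  exact (Set.mem_iInter.1 h2) ⟨j, hj⟩

section main

attribute [local instance] Abelian.hasFiniteBiproducts

variable {k : Type} [Field k] {M : Type u} [Category.{v} M] [Abelian M]
  {D : CompactData k M} {O : PlaceData k M V}

/-- The property `L ∘ ord` is inherited by direct factors. -/
lemma factor_of (hO : IsPlace D O) (hL : Large L) {N N' : M} (i : N ⟶ N') (r : N' ⟶ N)
    (h : i ≫ r = 𝟙 N) (hN : L (O.ord N')) : L (O.ord N) :=
  hL.of_diff hN (hO.factor i r h)

/-- The objects `H^i_c(X)` for the point and for the schemes with the property `G`. -/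
def OfSch (D : CompactData k M) (G : Sch k → Prop) (N : M) : Prop :=
  (∃ i : ℤ, N = D.H i (aff k k)) ∨ ∃ (X : Sch k) (i : ℤ), G X ∧ N = D.H i X

/-- Finite direct sums of motives of the schemes with the property `G`, and finite intersections of the
sets of places of these schemes. -/
theorem sums_iff (hD : IsCompact D) (hO : IsPlace D O) (hL : Large L) (G : Sch k → Prop)
    (hG : ∀ X, G X → FT True X) :
    SumsHave D (OfSch D G) (fun N => L (O.ord N)) ↔
      ∀ (J : Type) [Finite J] (X : J → Sch k), (∀ j, G (X j)) → L (⋂ j, O.places (X j)) := by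
  constructor
  · intro h J _ X hX
    have h1 := fun j => (hO.scheme (X j) (hG _ (hX j))).2
    choose I hI using h1
    have h2 := h (Σ j, I j) (fun p => D.H p.2.1 (X p.1)) (fun _ => 0)
      (fun p => Or.inr ⟨X p.1, p.2.1, hX p.1, rfl⟩)
    refine hL.of_diff h2 (diff_iInter fun j => ?_)
    refine diff_trans (diff_biInter (I j) fun i hi => ?_) (hI j)
    obtain ⟨e⟩ := hD.twZero
    let p : Σ j, I j := ⟨j, i, hi⟩
    have h3 := hO.factor
      (e.inv.app (D.H i (X j)) ≫ biproduct.ι (fun p : Σ j, I j => (D.tw 0).obj (D.H p.2.1 (X p.1))) p)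
      (biproduct.π (fun p : Σ j, I j => (D.tw 0).obj (D.H p.2.1 (X p.1))) p ≫
        e.hom.app (D.H i (X j))) (by
      rw [Category.assoc, ← Category.assoc (biproduct.ι _ _), biproduct.ι_π_self]
      erw [Category.id_comp]
      exact e.inv_hom_id_app _)
    exact h3
  · intro h J _ N a hN
    let J' := {j : J // ∃ X, G X ∧ ∃ i : ℤ, N j = D.H i X}
    have h1 : ∀ j : J', ∃ X, G X ∧ ∃ i : ℤ, N j.1 = D.H i X := fun j => j.2
    choose X hX h2 using h1
    have h3 : ∀ j, ((⋂ j : J', O.places (X j)) \ O.ord (N j)).Finite := by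
      intro j
      by_cases hj : ∃ X, G X ∧ ∃ i : ℤ, N j = D.H i X
      · obtain ⟨i, hi⟩ := h2 ⟨j, hj⟩
        have h4 := (hO.scheme (X ⟨j, hj⟩) (hG _ (hX ⟨j, hj⟩))).1 i
        rw [← hi] at h4
        exact h4.subset fun x hx => ⟨Set.mem_iInter.1 hx.1 ⟨j, hj⟩, hx.2⟩
      · rcases hN j with ⟨i, hi⟩ | ⟨X, i, hX, h3⟩
        · rw [hi]
          have h4 := diff_trans hO.point ((hO.scheme (aff k k) (ft_aff True)).1 i)
          exact h4.subset fun x hx => ⟨trivial, hx.2⟩
        · exact absurd ⟨X, hX, i, h3⟩ hj
    exact hL.of_diff (h J' X hX) (diff_trans (diff_iInter h3) (hO.sum J N a))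

/-- `SumsHave` for the point and other objects, when the point is superfluous. -/
lemma sums_point (hD : IsCompact D) {G P : M → Prop}
    (hP : ∀ {X Y : M} (i : X ⟶ Y) (r : Y ⟶ X), i ≫ r = 𝟙 X → P Y → P X)
    (hss : ∀ {X Y : M} (f : X ⟶ Y), Mono f → ∃ r : Y ⟶ X, f ≫ r = 𝟙 X)
    (h0 : ∀ i, FactorOfSum D G (D.H i (aff k k))) :
    SumsHave D G P ↔ SumsHave D (fun N => (∃ i : ℤ, N = D.H i (aff k k)) ∨ G N) P := by
  constructor
  · refine sumsHave_of_gen hD hss hP fun N hN => ?_
    rcases hN with ⟨i, rfl⟩ | h
    · exact h0 i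
    · exact FactorOfSum.self hD h
  · exact sumsHave_of_gen hD hss hP fun N hN => FactorOfSum.self hD (Or.inr hN)

/-- Every finite family of smooth projective schemes of dimension at most `n` has a large set of common
places. -/
def FamProj (O : PlaceData k M V) (L : Set V → Prop) (n : ℕ) : Prop :=
  ∀ (J : Type) [Finite J] (Y : J → Sch k), (∀ j, SmoothProj (Y j) ∧
    topologicalKrullDim (Y j).left ≤ n) → L (⋂ j, O.places (Y j))

/-- Every finite family of hypersurfaces `T = 1`, for trilinear forms `T` with a block of at most `m`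
variables, has a large set of common places. -/
def FamForms (O : PlaceData k M V) (L : Set V → Prop) (m : ℕ) : Prop :=
  ∀ (J : Type) [Finite J] (a b c : J → ℕ) (T : ∀ j, Fin (a j) → Fin (b j) → Fin (c j) → k),
    (∀ j, a j ≤ m ∨ b j ≤ m ∨ c j ≤ m) → L (⋂ j, O.places (hypS (T j)))

/-- Every finite family of hypersurfaces `X_H` of tripartite hypergraphs `H` has a large set of common
places. -/
def FamGraphs (O : PlaceData k M V) (L : Set V → Prop) : Prop :=
  ∀ (J : Type) [Finite J] (a b c : J → ℕ) (H : ∀ j, Finset (Fin (a j) × Fin (b j) × Fin (c j))),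
    L (⋂ j, O.places (tripS k (H j)))

variable [PerfectField k] (h : IsMotives D) (hO : IsPlace D O) (hL : Large L)

include h hO hL

/-- Smooth projective schemes of dimension at most `n`, and cubic hypersurfaces. -/
theorem fam_iff (n : ℕ) : FamProj O L n ↔ FamForms O L (n + 2) := by
  have hP : ∀ {X Y : M} (i : X ⟶ Y) (r : Y ⟶ X), i ≫ r = 𝟙 X → L (O.ord Y) → L (O.ord X) :=
    fun i r e hN => factor_of hO hL i r e hN
  have h0 := point_factor h.compact h.generated h.semisimple n fun Y hY hn i =>
    FactorOfSum.self (G := OfProj D n) h.compact ⟨Y, i, hY, hn, rfl⟩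
  have h1 := sums_point h.compact (G := OfProj D n) (P := fun N => L (O.ord N)) hP h.semisimple h0
  have h2 : (fun N => (∃ i : ℤ, N = D.H i (aff k k)) ∨ OfProj D n N) =
      OfSch D (fun Y => SmoothProj Y ∧ topologicalKrullDim Y.left ≤ n) := by
    funext N
    simp only [OfSch, OfProj, and_assoc]
  have h3 : OfForms D (n + 2) = OfSch D (fun X => ∃ (a b c : ℕ)
      (T : Fin a → Fin b → Fin c → k), (a ≤ n + 2 ∨ b ≤ n + 2 ∨ c ≤ n + 2) ∧ X = hypS T) := by
    funext N
    simp only [OfSch, OfForms, eq_iff_iff]
    constructor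
    · rintro (h | ⟨a, b, c, T, i, hm, rfl⟩)
      · exact Or.inl h
      · exact Or.inr ⟨_, i, ⟨a, b, c, T, hm, rfl⟩, rfl⟩
    · rintro (h | ⟨_, i, ⟨a, b, c, T, hm, rfl⟩, rfl⟩)
      · exact Or.inl h
      · exact Or.inr ⟨a, b, c, T, i, hm, rfl⟩
  have h4 := sums_dim_iff h.compact h.generated h.semisimple hP n
  rw [h1, h2, h3, sums_iff h.compact hO hL _ fun X hX => hX.1.ft, sums_iff h.compact hO hL _ ?_] at h4
  · refine h4.trans ⟨fun h J _ a b c T hm => h J (fun j => hypS (T j)) fun j =>
      ⟨a j, b j, c j, T j, hm j, rfl⟩, fun h J _ X hX => ?_⟩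
    choose a b c T hm hX using hX
    have h5 := h J a b c T hm
    rwa [show X = fun j => hypS (T j) from funext hX]
  · rintro X ⟨a, b, c, T, -, rfl⟩
    exact ft_aff True

/-- Finite families of smooth projective schemes, and of cubic hypersurfaces. -/
theorem fam_all_iff :
    (∀ (J : Type) [Finite J] (Y : J → Sch k), (∀ j, SmoothProj (Y j)) →
      L (⋂ j, O.places (Y j))) ↔
      ∀ (J : Type) [Finite J] (a b c : J → ℕ) (T : ∀ j, Fin (a j) → Fin (b j) → Fin (c j) → k),
        L (⋂ j, O.places (hypS (T j))) := by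
  have hP : ∀ {X Y : M} (i : X ⟶ Y) (r : Y ⟶ X), i ≫ r = 𝟙 X → L (O.ord Y) → L (O.ord X) :=
    fun i r e hN => factor_of hO hL i r e hN
  have h0 := point_factor h.compact h.generated h.semisimple 0 fun Y hY _ i =>
    FactorOfSum.self (G := OfProjAll D) h.compact ⟨Y, i, hY, rfl⟩
  have h1 := sums_point h.compact (G := OfProjAll D) (P := fun N => L (O.ord N)) hP h.semisimple h0
  have h2 : (fun N => (∃ i : ℤ, N = D.H i (aff k k)) ∨ OfProjAll D N) = OfSch D SmoothProj := by
    funext N
    simp only [OfSch, OfProjAll]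
  have h3 : OfFormsAll D = OfSch D (fun X => ∃ (a b c : ℕ)
      (T : Fin a → Fin b → Fin c → k), X = hypS T) := by
    funext N
    simp only [OfSch, OfFormsAll, eq_iff_iff]
    constructor
    · rintro (h | ⟨a, b, c, T, i, rfl⟩)
      · exact Or.inl h
      · exact Or.inr ⟨_, i, ⟨a, b, c, T, rfl⟩, rfl⟩
    · rintro (h | ⟨_, i, ⟨a, b, c, T, rfl⟩, rfl⟩)
      · exact Or.inl h
      · exact Or.inr ⟨a, b, c, T, i, rfl⟩
  have h4 := sums_all_iff h.compact h.generated h.semisimple hP
  rw [h1, h2, h3, sums_iff h.compact hO hL _ fun X hX => hX.ft, sums_iff h.compact hO hL _ ?_] at h4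
  · refine h4.trans ⟨fun h J _ a b c T => h J (fun j => hypS (T j)) fun j =>
      ⟨a j, b j, c j, T j, rfl⟩, fun h J _ X hX => ?_⟩
    choose a b c T hX using hX
    have h5 := h J a b c T
    rwa [show X = fun j => hypS (T j) from funext hX]
  · rintro X ⟨a, b, c, T, rfl⟩
    exact ft_aff True

/-- The same over a prime field, with hypergraphs. -/
theorem fam_graphs_iff (hk : Frac k) :
    (∀ (J : Type) [Finite J] (Y : J → Sch k), (∀ j, SmoothProj (Y j)) →
      L (⋂ j, O.places (Y j))) ↔ FamGraphs O L := by
  have hP : ∀ {X Y : M} (i : X ⟶ Y) (r : Y ⟶ X), i ≫ r = 𝟙 X → L (O.ord Y) → L (O.ord X) :=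
    fun i r e hN => factor_of hO hL i r e hN
  have h0 := point_factor h.compact h.generated h.semisimple 0 fun Y hY _ i =>
    FactorOfSum.self (G := OfProjAll D) h.compact ⟨Y, i, hY, rfl⟩
  have h1 := sums_point h.compact (G := OfProjAll D) (P := fun N => L (O.ord N)) hP h.semisimple h0
  have h2 : (fun N => (∃ i : ℤ, N = D.H i (aff k k)) ∨ OfProjAll D N) = OfSch D SmoothProj := by
    funext N
    simp only [OfSch, OfProjAll]
  have h3 : OfGraphs D = OfSch D (fun X => ∃ (a b c : ℕ)
      (H : Finset (Fin a × Fin b × Fin c)), X = tripS k H) := by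
    funext N
    simp only [OfSch, OfGraphs, eq_iff_iff]
    constructor
    · rintro (h | ⟨a, b, c, T, i, rfl⟩)
      · exact Or.inl h
      · exact Or.inr ⟨_, i, ⟨a, b, c, T, rfl⟩, rfl⟩
    · rintro (h | ⟨_, i, ⟨a, b, c, T, rfl⟩, rfl⟩)
      · exact Or.inl h
      · exact Or.inr ⟨a, b, c, T, i, rfl⟩
  have h4 := sums_graph_iff h.compact h.generated h.semisimple hP hk
  rw [h1, h2, h3, sums_iff h.compact hO hL _ fun X hX => hX.ft, sums_iff h.compact hO hL _ ?_] at h4
  · refine h4.trans ⟨fun h J _ a b c T => h J (fun j => tripS k (T j)) fun j =>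
      ⟨a j, b j, c j, T j, rfl⟩, fun h J _ X hX => ?_⟩
    choose a b c T hX using hX
    have h5 := h J a b c T
    rwa [show X = fun j => tripS k (T j) from funext hX]
  · rintro X ⟨a, b, c, T, rfl⟩
    exact ft_aff True

omit [PerfectField k] h in
/-- Finite families, and single smooth projective schemes. -/
lemma single_iff : (∀ Y : Sch k, SmoothProj Y → L (O.places Y)) ↔
    ∀ (J : Type) [Finite J] (Y : J → Sch k), (∀ j, SmoothProj (Y j)) → L (⋂ j, O.places (Y j)) := by
  constructor
  · intro h J _ Y hY
    obtain ⟨X, hX, -, hX'⟩ := hO.union J Y hY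
    exact hL.of_diff (h X hX) (diff_iInter hX')
  · intro h Y hY
    have h1 := h Unit (fun _ => Y) fun _ => hY
    rwa [Set.iInter_const] at h1

omit [PerfectField k] h in
/-- Finite families, and single smooth projective schemes of dimension at most `n`. -/
lemma single_dim_iff (n : ℕ) : (∀ Y : Sch k, SmoothProj Y → topologicalKrullDim Y.left ≤ n →
    L (O.places Y)) ↔ FamProj O L n := by
  constructor
  · intro h J _ Y hY
    obtain ⟨X, hX, hn, hX'⟩ := hO.union J Y fun j => (hY j).1
    exact hL.of_diff (h X hX (hn n fun j => (hY j).2)) (diff_iInter hX')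
  · intro h Y hY hn
    have h1 := h Unit (fun _ => Y) fun _ => ⟨hY, hn⟩
    rwa [Set.iInter_const] at h1

/-- **All smooth projective schemes over a prime field, and hypergraphs.** -/
theorem graphs_iff (hk : Frac k) :
    (∀ Y : Sch k, SmoothProj Y → L (O.places Y)) ↔ FamGraphs O L :=
  (single_iff hO hL).trans (fam_graphs_iff h hO hL hk)

/-- **All smooth projective schemes, and trilinear forms.** -/
theorem forms_iff : (∀ Y : Sch k, SmoothProj Y → L (O.places Y)) ↔
    ∀ (J : Type) [Finite J] (a b c : J → ℕ) (T : ∀ j, Fin (a j) → Fin (b j) → Fin (c j) → k),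
      L (⋂ j, O.places (hypS (T j))) :=
  (single_iff hO hL).trans (fam_all_iff h hO hL)

/-- **Smooth projective schemes of dimension at most `n`, and trilinear forms.** -/
theorem dim_forms_iff (n : ℕ) : (∀ Y : Sch k, SmoothProj Y → topologicalKrullDim Y.left ≤ n →
    L (O.places Y)) ↔ FamForms O L (n + 2) :=
  (single_dim_iff hO hL n).trans (fam_iff h hO hL n)

omit hL in
/-- **Trilinear forms with a block of at most two variables.** -/
theorem two_variables {a b c : ℕ} (T : Fin a → Fin b → Fin c → k) (hT : a ≤ 2 ∨ b ≤ 2 ∨ c ≤ 2) :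
    (Set.univ \ O.places (hypS T)).Finite := by
  have hL : Large fun S : Set V => (Set.univ \ S).Finite :=
    ⟨fun h hST => h.subset fun x hx => ⟨trivial, fun hxS => hx.2 (hST hxS)⟩, fun {S F} h hF =>
      (h.union hF).subset fun x hx => by
        by_cases hxS : x ∈ S
        · exact Or.inr (by_contra fun hxF => hx.2 ⟨hxS, hxF⟩)
        · exact Or.inl ⟨trivial, hxS⟩⟩
  have h1 := (dim_forms_iff h hO hL 0).1 hO.zero Unit (fun _ => a) (fun _ => b) (fun _ => c)
    (fun _ => T) fun _ => hT
  rwa [Set.iInter_const] at h1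

end main

end Pool.Agent.Q137.UO
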