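import Mathlib
import Pool.Agent.Q137.UO.Ord

/-!
# Sets of finite places of positive lower density
-/

set_option autoImplicit false

open IsDedekindDomain NumberField Filter

namespace Pool.Agent.Q137.UO

variable {K : Type} [Field K] [NumberField K]

lemma infinite_places : Infinite (HeightOneSpectrum (𝓞 K)) := by
  have h1 : ∀ p : Nat.Primes, ∃ v : HeightOneSpectrum (𝓞 K), ((p : ℕ) : 𝓞 K) ∈ v.asIdeal := by
    intro p
    have h2 : Ideal.span {((p : ℕ) : 𝓞 K)} ≠ ⊤ := by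
      intro h
      have h3 := congrArg Ideal.absNorm h
      rw [Ideal.absNorm_span_singleton, Ideal.absNorm_top,
        show ((p : ℕ) : 𝓞 K) = algebraMap ℤ (𝓞 K) ((p : ℕ) : ℤ) by simp,
        Algebra.norm_algebraMap, Int.natAbs_pow, Int.natAbs_natCast] at h3
      have h4 : Module.finrank ℤ (𝓞 K) ≠ 0 := Module.finrank_pos.ne'
      have h5 := (Nat.pow_eq_one.1 h3).resolve_right h4
      exact p.2.one_lt.ne' h5
    obtain ⟨M, hM, hle⟩ := Ideal.exists_le_maximal _ h2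
    have h6 : ((p : ℕ) : 𝓞 K) ∈ M := hle (Ideal.mem_span_singleton_self _)
    refine ⟨⟨M, hM.isPrime, ?_⟩, h6⟩
    rintro rfl
    exact Nat.cast_ne_zero.2 p.2.ne_zero ((Submodule.mem_bot _).1 h6)
  choose f hf using h1
  refine Infinite.of_injective f fun p q hpq => ?_
  by_contra hne
  have h2 : Nat.Coprime p q := (Nat.coprime_primes p.2 q.2).2 fun h => hne (Subtype.ext h)
  have h3 : IsCoprime ((p : ℕ) : ℤ) ((q : ℕ) : ℤ) := Nat.isCoprime_iff_coprime.2 h2
  obtain ⟨a, b, hab⟩ := h3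
  have h4 : (1 : 𝓞 K) ∈ (f p).asIdeal := by
    have h5 : ((a : ℤ) : 𝓞 K) * ((p : ℕ) : 𝓞 K) + ((b : ℤ) : 𝓞 K) * ((q : ℕ) : 𝓞 K) = 1 := by
      exact_mod_cast congrArg (fun z : ℤ => (z : 𝓞 K)) hab
    rw [← h5]
    refine add_mem (Ideal.mul_mem_left _ _ (hf p)) (Ideal.mul_mem_left _ _ ?_)
    rw [hpq]
    exact hf q
  exact (f p).isPrime.ne_top ((Ideal.eq_top_iff_one _).2 h4)

/-- The number of the places in `S` of norm at most `x`. -/
noncomputable def cnt (S : Set (HeightOneSpectrum (𝓞 K))) (x : ℕ) : ℕ :=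
  {v | v ∈ S ∧ Ideal.absNorm v.asIdeal ≤ x}.ncard

/-- The set `S` of finite places has positive (lower) density: the lower limit of the quotients
`#{v ∈ S : Nv ≤ x} / #{v : Nv ≤ x}` is positive. -/
def PosDens (S : Set (HeightOneSpectrum (𝓞 K))) : Prop :=
  ∃ c : ℝ, 0 < c ∧ ∀ᶠ x : ℕ in atTop, c * cnt (Set.univ : Set (HeightOneSpectrum (𝓞 K))) x ≤ cnt S x

lemma finite_le (S : Set (HeightOneSpectrum (𝓞 K))) (x : ℕ) :
    {v | v ∈ S ∧ Ideal.absNorm v.asIdeal ≤ x}.Finite := by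
  have h1 : {I : Ideal (𝓞 K) | Ideal.absNorm I ≤ x}.Finite := Ideal.finite_setOfPred_absNorm_le x
  refine Set.Finite.of_finite_image (h1.subset ?_)
    (f := fun v : HeightOneSpectrum (𝓞 K) => v.asIdeal) fun v _ w _ h => HeightOneSpectrum.ext h
  rintro _ ⟨v, hv, rfl⟩
  exact hv.2

lemma cnt_mono {S T : Set (HeightOneSpectrum (𝓞 K))} (h : S ⊆ T) (x : ℕ) : cnt S x ≤ cnt T x :=
  Set.ncard_le_ncard (fun _ hv => ⟨h hv.1, hv.2⟩) (finite_le T x)

lemma cnt_large (n : ℕ) :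
    ∀ᶠ x : ℕ in atTop, n ≤ cnt (Set.univ : Set (HeightOneSpectrum (𝓞 K))) x := by
  have := infinite_places (K := K)
  obtain ⟨s, hs⟩ := Infinite.exists_subset_card_eq (HeightOneSpectrum (𝓞 K)) n
  filter_upwards [eventually_ge_atTop (s.sup fun v => Ideal.absNorm v.asIdeal)] with x hx
  rw [← hs, ← Set.ncard_coe_finset s]
  refine Set.ncard_le_ncard (fun v hv => ⟨trivial, ?_⟩) (finite_le _ x)
  exact (Finset.le_sup (f := fun v : HeightOneSpectrum (𝓞 K) => Ideal.absNorm v.asIdeal) hv).trans hx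

theorem large_posDens : Large (PosDens : Set (HeightOneSpectrum (𝓞 K)) → Prop) where
  mono := by
    rintro S T ⟨c, hc, h⟩ hST
    refine ⟨c, hc, h.mono fun x hx => hx.trans ?_⟩
    exact_mod_cast cnt_mono hST x
  cut := by
    rintro S F ⟨c, hc, h⟩ hF
    refine ⟨c / 2, by positivity, ?_⟩
    obtain ⟨n, hn⟩ := exists_nat_ge (2 * F.ncard / c : ℝ)
    filter_upwards [h, cnt_large (K := K) n] with x h1 h2
    have h3 : cnt S x ≤ cnt (S \ F) x + F.ncard := by
      have h4 : {v | v ∈ S ∧ Ideal.absNorm v.asIdeal ≤ x} ⊆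
          {v | v ∈ S \ F ∧ Ideal.absNorm v.asIdeal ≤ x} ∪ F := by
        intro v hv
        by_cases hvF : v ∈ F
        · exact Or.inr hvF
        · exact Or.inl ⟨⟨hv.1, hvF⟩, hv.2⟩
      exact (Set.ncard_le_ncard h4 ((finite_le _ x).union hF)).trans (Set.ncard_union_le _ _)
    have h5 : (2 * F.ncard : ℝ) ≤ c * cnt (Set.univ : Set (HeightOneSpectrum (𝓞 K))) x := by
      have h6 : (2 * F.ncard / c : ℝ) ≤ cnt (Set.univ : Set (HeightOneSpectrum (𝓞 K))) x :=
        hn.trans (by exact_mod_cast h2)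
      rw [div_le_iff₀ hc] at h6
      linarith
    have h7 : (cnt S x : ℝ) ≤ cnt (S \ F) x + F.ncard := by exact_mod_cast h3
    linarith

end Pool.Agent.Q137.UO
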