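import Pool.Agent.Q193.LT.Sums
import Pool.Agent.Q193.LT.Crit

/-!
# Two families of linear groups attached to motives

Let `W` be a functor from motives to vector spaces (a realization) and let `A N` and `B N` be groups of
automorphisms of `W N`, for all motives `N`. The equality `A N = B N` is inherited by direct factors if
the groups of a direct factor are the restrictions of the groups.
-/

set_option autoImplicit false

open CategoryTheory CategoryTheory.Limits AlgebraicGeometry Pool.Agent.Y116.UV Pool.Agent.Z125.UN
  Pool.Agent.Q193.LT

universe v' u' v u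

namespace Pool.Agent.Q137.UO

variable {M : Type u} [Category.{v} M] {C : Type u'} [Category.{v'} C]

/-- Two families of groups of automorphisms of the realization `W`. -/
structure GroupPair (W : M ⥤ C) where
  A : ∀ N, Subgroup (Aut (W.obj N))
  B : ∀ N, Subgroup (Aut (W.obj N))

/-- For a family `A` of groups of automorphisms: the group of a direct factor `N` of `N'` consists of
the restrictions to `N` of the elements of the group of `N'`. -/
def Restricts {W : M ⥤ C} (A : ∀ N, Subgroup (Aut (W.obj N))) : Prop :=
  ∀ {N N' : M} (i : N ⟶ N') (r : N' ⟶ N), i ≫ r = 𝟙 N → ∀ g : Aut (W.obj N),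
    g ∈ A N ↔ ∃ g' ∈ A N', W.map i ≫ g'.hom = g.hom ≫ W.map i

/-- The two groups of `N` are equal. -/
def Same {W : M ⥤ C} (P : GroupPair W) (N : M) : Prop := P.A N = P.B N

lemma Same.factor {W : M ⥤ C} {P : GroupPair W} (hA : Restricts P.A)
    (hB : Restricts P.B) {N N' : M} (i : N ⟶ N') (r : N' ⟶ N) (h : i ≫ r = 𝟙 N)
    (hN : Same P N') : Same P N := by
  refine Subgroup.ext fun g => ?_
  rw [hA i r h g, hB i r h g, show P.A N' = P.B N' from hN]

section

attribute [local instance] Abelian.hasFiniteBiproducts

/-- A direct factor of a finite sum of twists has the property, if finite sums of twists have it. -/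
lemma of_sums {R : Type} [CommRing R] {M : Type u} [Category.{v} M] [Abelian M]
    {D : CompactData R M} {G P : M → Prop}
    (hP : ∀ {X Y : M} (i : X ⟶ Y) (r : Y ⟶ X), i ≫ r = 𝟙 X → P Y → P X)
    (h : SumsHave D G P) {N : M} (hN : FactorOfSum D G N) : P N := by
  obtain ⟨J, _, N', a, i, r, hG, hir⟩ := hN.retract
  exact hP i r hir (h J N' a hG)

variable {k : Type} [Field k] {M : Type u} [Category.{v} M] [Abelian M] {C : Type u'}
  [Category.{v'} C]

/-- The known properties of the Mumford-Tate groups `P.A N` and of the identity components `P.B N` of the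
`ℓ`-adic monodromy groups:

* `mt`, `gl`: the groups of direct factors;
* `zero`: the two groups are equal for the motives of schemes of dimension `0` and their Tate twists;
* `single`: for every finite direct sum of Tate twists of motives of smooth projective schemes there is
  a motive `h^i(X)`, `X` smooth and projective, such that the two groups are equal for the direct sum if
  they are equal for `h^i(X)`. -/
structure IsMT (D : CompactData k M) {W : M ⥤ C} (P : GroupPair W) : Prop where
  mt : Restricts P.A
  gl : Restricts P.B
  zero : SumsHave D (OfProj D 0) (Same P)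
  single : ∀ (J : Type) [Finite J] (N : J → M) (a : J → ℤ), (∀ j, OfProjAll D (N j)) →
    ∃ (X : Sch k) (i : ℤ), SmoothProj X ∧
      (Same P (D.H i X) → Same P (⨁ fun j => (D.tw (a j)).obj (N j)))

theorem single_iff_sums {D : CompactData k M} (hD : IsCompact D) {W : M ⥤ C}
    {P : GroupPair W} (hP : IsMT D P) :
    (∀ Y : Sch k, SmoothProj Y → ∀ i, Same P (D.H i Y)) ↔ SumsHave D (OfProjAll D) (Same P) := by
  constructor
  · intro h J _ N a hN
    obtain ⟨X, i, hX, h1⟩ := hP.single J N a hN
    exact h1 (h X hX i)
  · intro h Y hY i
    exact of_sums (Same.factor hP.mt hP.gl) h (FactorOfSum.self hD ⟨Y, i, hY, rfl⟩)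

end

end Pool.Agent.Q137.UO
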