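import Pool.Agent.Q137.UO.Ord

/-!
# Infinite sets of places
-/

set_option autoImplicit false

namespace Pool.Agent.Q137.UO

theorem large_infinite {V : Type} : Large (Set.Infinite : Set V → Prop) where
  mono h hST := h.mono hST
  cut h hF := h.sdiff hF

end Pool.Agent.Q137.UO
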