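import Pool.Agent.Q137.UO.Ord
import Pool.Agent.Q137.UO.Inf

/-!
# Intersection cohomology and places with a given property
-/

set_option autoImplicit false

open CategoryTheory CategoryTheory.Limits AlgebraicGeometry Pool.Agent.Y116.UV Pool.Agent.Z125.UN
  Pool.Agent.Q193.LT

universe v u

namespace Pool.Agent.Q137.UO

/-- `X` is projective over the field `F`: a closed subscheme of a projective space. -/
def IsProj {F : Type} [Field F] (X : Sch F) : Prop :=
  ∃ (n : ℕ) (i : X ⟶ projSpace F n), IsClosedImmersion i.left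

/-- The standard properties of the motives `IH X n` of the intersection cohomology of the projective
schemes `X` over `F`; the other motives are those of the schemes over `k`, extended to `F`.

* `factor`: `IH X n` is a direct factor of a motive `h^i(Y_F)`, `Y` smooth and projective over `k`, of
  dimension at most `d` if `X` has dimension at most `d` (decomposition theorem, resolution of
  singularities, restriction of scalars);
* `smooth`: for `X = Y_F`, `Y` smooth and projective over `k`, `IH X n` is `h^n(Y_F)`;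
* `dom`: for smooth projective `Y_j` over `k` there are a projective scheme `X` and an `n` such that the
  places for `IH X n` are places for all the `Y_j`, up to finitely many. -/
structure IsIH {k F : Type} [Field k] [Field F] {M : Type u} [Category.{v} M] [Abelian M]
    (D : CompactData k M) {V : Type} (O : PlaceData k M V) (IH : Sch F → ℤ → M) : Prop where
  factor : ∀ (X : Sch F) (n : ℤ), IsProj X → ∃ (Y : Sch k) (i : ℤ), SmoothProj Y ∧
    (∀ d : ℕ, topologicalKrullDim X.left ≤ d → topologicalKrullDim Y.left ≤ d) ∧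
      ∃ (f : IH X n ⟶ D.H i Y) (r : D.H i Y ⟶ IH X n), f ≫ r = 𝟙 _
  smooth : ∀ Y : Sch k, SmoothProj Y → ∃ X : Sch F, IsProj X ∧
    (∀ d : ℕ, topologicalKrullDim Y.left ≤ d → topologicalKrullDim X.left ≤ d) ∧
      ∀ n, Nonempty (IH X n ≅ D.H n Y)
  dom : ∀ (J : Type) [Finite J] (Y : J → Sch k), (∀ j, SmoothProj (Y j)) →
    ∃ (X : Sch F) (n : ℤ), IsProj X ∧ ∀ j, (O.ord (IH X n) \ O.places (Y j)).Finite

section

attribute [local instance] Abelian.hasFiniteBiproducts

variable {k F : Type} [Field k] [Field F] {M : Type u} [Category.{v} M] [Abelian M]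
  {D : CompactData k M} {V : Type} {L : Set V → Prop} {O : PlaceData k M V}
  {IH : Sch F → ℤ → M} (hO : IsPlace D O) (hI : IsIH D O IH) (hL : Large L)

include hO hI

lemma places_of_factor {X : Sch F} {n : ℤ} (hX : IsProj X) :
    ∃ Y : Sch k, SmoothProj Y ∧
      (∀ d : ℕ, topologicalKrullDim X.left ≤ d → topologicalKrullDim Y.left ≤ d) ∧
      (O.places Y \ O.ord (IH X n)).Finite := by
  obtain ⟨Y, i, hY, hYd, f, r, hfr⟩ := hI.factor X n hX
  exact ⟨Y, hY, hYd, diff_trans ((hO.scheme Y hY.ft).1 i) (hO.factor f r hfr)⟩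

include hL

/-- All motives `IH X n`. -/
theorem ih_iff : (∀ (X : Sch F) (n : ℤ), IsProj X → L (O.ord (IH X n))) ↔
    ∀ Y : Sch k, SmoothProj Y → L (O.places Y) := by
  constructor
  · intro h Y hY
    obtain ⟨X, n, hX, h1⟩ := hI.dom Unit (fun _ => Y) fun _ => hY
    exact hL.of_diff (h X n hX) (h1 ())
  · intro h X n hX
    obtain ⟨Y, hY, -, h1⟩ := places_of_factor (n := n) hO hI hX
    exact hL.of_diff (h Y hY) h1

/-- Finite families of motives `IH X n` in dimension at most `d`. -/
theorem ih_dim_iff (d : ℕ) : (∀ (J : Type) [Finite J] (X : J → Sch F) (n : J → ℤ),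
    (∀ j, IsProj (X j) ∧ topologicalKrullDim (X j).left ≤ d) →
      L (⋂ j, O.ord (IH (X j) (n j)))) ↔ FamProj O L d := by
  constructor
  · intro h J _ Y hY
    have h1 := fun j => hI.smooth (Y j) (hY j).1
    choose X hX hd e using h1
    have h2 := fun j => (hO.scheme (Y j) (hY j).1.ft).2
    choose I hfin using h2
    have h3 := h (Σ j, I j) (fun p => X p.1) (fun p => p.2.1) fun p =>
      ⟨hX p.1, hd p.1 d (hY p.1).2⟩
    refine hL.of_diff h3 (diff_iInter fun j => diff_trans (diff_biInter (I j) fun i hi => ?_) (hfin j))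
    obtain ⟨e⟩ := e j i
    have h4 := hO.factor e.inv e.hom e.inv_hom_id
    refine h4.subset fun x hx => ⟨?_, hx.2⟩
    exact Set.mem_iInter.1 hx.1 (⟨j, i, hi⟩ : Σ j, I j)
  · intro h J _ X n hX
    have h1 := fun j => places_of_factor (n := n j) hO hI (hX j).1
    choose Y hY hYd hfin using h1
    refine hL.of_diff (h J Y fun j => ⟨hY j, hYd j d (hX j).2⟩) (diff_iInter fun j => ?_)
    exact (hfin j).subset fun x hx => ⟨Set.mem_iInter.1 hx.1 j, hx.2⟩

end

end Pool.Agent.Q137.UO
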