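import Pool.Agent.Q137.UO.Grp

/-!
# Sato-Tate groups
-/

set_option autoImplicit false

open CategoryTheory CategoryTheory.Limits AlgebraicGeometry Pool.Agent.Y116.UV Pool.Agent.Z125.UN
  Pool.Agent.Q193.LT

universe v' u' v u

namespace Pool.Agent.Q137.UO

section

variable {k : Type} [Field k] {M : Type u} [Category.{v} M] [Abelian M] {C : Type u'}
  [Category.{v'} C] {W : M ⥤ C}

/-- The known properties of the motivic Galois groups `P.A N`, of the `ℓ`-adic monodromy groups `P.B N`
and of the kernels `K N` of the multipliers on the groups `P.A N`, for pure `N` (property `pure`):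

* `sub`: `P.B N` is contained in `P.A N`;
* `mot`, `gal`: the groups of direct factors;
* `gen`: every motive is a direct factor of a finite direct sum of Tate twists of motives `h^i(Y)`;
* `zero`: the two groups are equal for the motives of schemes of dimension `0` and their Tate twists;
* `onto`: for pure `N` the multiplier has the same image on the two groups, so `P.A N = K N P.B N`;
* `toPure`: for every motive `N` there is a pure motive `N'` such that the two groups are equal for
  `N` if they are equal for `N'`. -/
structure IsST (D : CompactData k M) (P : GroupPair W) (pure : M → Prop)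
    (K : ∀ N, Subgroup (Aut (W.obj N))) : Prop where
  sub : ∀ N, P.B N ≤ P.A N
  mot : Restricts P.A
  gal : Restricts P.B
  gen : ∀ N, FactorOfSum D (OfProjAll D) N
  zero : SumsHave D (OfProj D 0) (Same P)
  onto : ∀ N, pure N → K N ≤ P.A N ∧ ∀ g ∈ P.A N, ∃ h ∈ P.B N, g * h⁻¹ ∈ K N
  toPure : ∀ N, ∃ N', pure N' ∧ (Same P N' → Same P N)

/-- For all pure motives `N`, the multiplier has the same kernel `K N` on the group `P.A N` and on its
subgroup `P.B N`. -/
def SatoTate (P : GroupPair W) (pure : M → Prop) (K : ∀ N, Subgroup (Aut (W.obj N))) : Prop :=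
  ∀ N, pure N → K N ⊓ P.B N = K N

variable {D : CompactData k M} {P : GroupPair W} {pure : M → Prop}
  {K : ∀ N, Subgroup (Aut (W.obj N))}

theorem satoTate_iff (hX : IsST D P pure K) : SatoTate P pure K ↔ ∀ N, Same P N := by
  constructor
  · intro h N
    obtain ⟨N', hN', h1⟩ := hX.toPure N
    refine h1 (le_antisymm (fun g hg => ?_) (hX.sub N'))
    obtain ⟨b, hb, h2⟩ := (hX.onto N' hN').2 g hg
    rw [← h N' hN'] at h2
    have h3 := (P.B N').mul_mem h2.2 hb
    rwa [inv_mul_cancel_right] at h3
  · intro h N hN
    rw [← show P.A N = P.B N from h N]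
    exact inf_eq_left.2 (hX.onto N hN).1

theorem all_iff_sums (hX : IsST D P pure K) :
    (∀ N, Same P N) ↔ SumsHave D (OfProjAll D) (Same P) :=
  ⟨fun h _ _ _ _ _ => h _, fun h N => of_sums (Same.factor hX.mot hX.gal) h (hX.gen N)⟩

end

end Pool.Agent.Q137.UO
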