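import Pool.Agent.Q49.WU.Facts
import Pool.Agent.Q193.LT.Sums
import Pool.Agent.Q137.UO.Ord
import Pool.Agent.Q137.UO.IH

/-!
# Places with a given property of motives, weight by weight
-/

set_option autoImplicit false

open CategoryTheory CategoryTheory.Limits AlgebraicGeometry Pool.Agent.Y116.UV Pool.Agent.Z125.UN
  Pool.Agent.Q193.LT Pool.Agent.Q49.WU

universe v u

namespace Pool.Agent.Q137.UO

section

attribute [local instance] Abelian.hasFiniteBiproducts

variable {k : Type} [Field k] {M : Type u} [Category.{v} M] [Abelian M] {V : Type}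

/-- The standard properties of the sets `ord N` of places; all inclusions are up to finitely many places.

* `factor`: a place for `N'` is a place for every direct factor `N` of `N'`;
* `sum`: a place for all `N_j` is a place for a finite direct sum of Tate twists of the `N_j`;
* `point`: almost all places are places for the cohomology of the point;
* `union`: for finitely many smooth projective schemes `Y_j` and degrees `n_j` there are a smooth
  projective scheme `X` (the disjoint union) and a degree `n` such that the places for `D.H N n X` are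
  places for all the `D.H N (n_j) (Y_j)`. -/
structure IsWPlace (D : WeightData k M) (ord : M → Set V) : Prop where
  factor : ∀ {N N' : M} (i : N ⟶ N') (r : N' ⟶ N), i ≫ r = 𝟙 N → (ord N' \ ord N).Finite
  sum : ∀ (J : Type) [Finite J] (N : J → M) (a : J → ℤ),
    ((⋂ j, ord (N j)) \ ord (⨁ fun j => (D.tw (a j)).obj (N j))).Finite
  point : ∀ N n, (Set.univ \ ord (D.H N n (aff k k))).Finite
  union : ∀ (N : ℤ) (J : Type) [Finite J] (Y : J → Sch k) (n : J → ℤ), (∀ j, SmoothProj (Y j)) →
    ∃ (X : Sch k) (m : ℤ), SmoothProj X ∧ ∀ j, (ord (D.H N m X) \ ord (D.H N (n j) (Y j))).Finite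

variable {D : WeightData k M} {ord : M → Set V} {L : Set V → Prop}

/-- Finite direct sums, and finite intersections of the sets of places. -/
theorem sums_ord (hD : IsWeight D) (hO : IsWPlace D ord) (hL : Large L) {Pt G : M → Prop}
    (hPt : ∀ N, Pt N → (Set.univ \ ord N).Finite) :
    SumsHave (zeroData D) (fun N => Pt N ∨ G N) (fun N => L (ord N)) ↔
      ∀ (J : Type) [Finite J] (N : J → M), (∀ j, G (N j)) → L (⋂ j, ord (N j)) := by
  constructor
  · intro h J _ N hN
    have h2 := h J N (fun _ => 0) fun j => Or.inr (hN j)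
    refine hL.of_diff h2 (diff_iInter fun j => ?_)
    obtain ⟨e⟩ := hD.twZero
    have h3 : (ord (⨁ fun j => (D.tw 0).obj (N j)) \ ord (N j)).Finite := hO.factor
      (e.inv.app (N j) ≫ biproduct.ι (fun j => (D.tw 0).obj (N j)) j)
      (biproduct.π (fun j => (D.tw 0).obj (N j)) j ≫ e.hom.app (N j)) (by
      rw [Category.assoc, ← Category.assoc (biproduct.ι _ _), biproduct.ι_π_self]
      erw [Category.id_comp]
      exact e.inv_hom_id_app _)
    exact h3
  · intro h J _ N a hN
    let J' := {j : J // G (N j)}
    have h1 := h J' (fun j => N j.1) fun j => j.2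
    refine hL.of_diff h1 (diff_trans (diff_iInter fun j => ?_) (hO.sum J N a))
    rcases hN j with h2 | h2
    · exact (hPt _ h2).subset fun x hx => ⟨trivial, hx.2⟩
    · refine Set.finite_empty.subset fun x hx => ?_
      exact hx.2 (Set.mem_iInter.1 hx.1 (⟨j, h2⟩ : J'))

/-- the objects of the point -/
def OfPt (D : WeightData k M) (N' : M) : Prop := ∃ N n : ℤ, N' = D.H N n (aff k k)

/-- the objects of the index `N` of smooth projective schemes -/
def OfProjW (D : WeightData k M) (N : ℤ) (N' : M) : Prop :=
  ∃ (Y : Sch k) (n : ℤ), SmoothProj Y ∧ N' = D.H N n Y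

/-- the objects of the index `N + a - 1` of the hypersurfaces of forms with `a` variables `x` -/
def OfFormsW (D : WeightData k M) (N : ℤ) (N' : M) : Prop :=
  ∃ (a b c : ℕ) (T : Fin a → Fin b → Fin c → k) (n : ℤ), N' = D.H (N + (a - 1)) n (hypS T)

/-- the objects of the index `N + a - 1` of the hypersurfaces of hypergraphs with `a` variables `x` -/
def OfGraphsW (D : WeightData k M) (N : ℤ) (N' : M) : Prop :=
  ∃ (a b c : ℕ) (H : Finset (Fin a × Fin b × Fin c)) (n : ℤ), N' = D.H (N + (a - 1)) n (tripS k H)

variable (h : IsWMotives D)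

include h

lemma tw_gen (G : M → Prop) : TwSerre D (FactorOfSum (zeroData D) G) :=
  twSerre_of_zero (gen_serre (zero_compact h.weight) h.semisimple)

variable {P : M → Prop} (hP : ∀ {X Y : M} (i : X ⟶ Y) (r : Y ⟶ X), i ≫ r = 𝟙 X → P Y → P X)

include hP

/-- Finite direct sums, weight by weight: smooth projective schemes and trilinear forms. -/
theorem wsums_iff (N : ℤ) :
    SumsHave (zeroData D) (fun N' => OfPt D N' ∨ OfProjW D N N') P ↔
      SumsHave (zeroData D) (fun N' => OfPt D N' ∨ OfFormsW D N N') P := by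
  have hc := zero_compact h.weight
  constructor
  · refine sumsHave_of_gen hc h.semisimple hP fun N' hN => ?_
    rcases hN with h1 | ⟨a, b, c, T, n, rfl⟩
    · exact FactorOfSum.self hc (Or.inl h1)
    · refine (sp_weight_iff h.weight h.generated (tw_gen h _) ?_ N).mp ?_ a b c T n
      · exact fun N' n => FactorOfSum.self hc (Or.inl ⟨N', n, rfl⟩)
      · exact fun Y hY n => FactorOfSum.self hc (Or.inr ⟨Y, n, hY, rfl⟩)
  · refine sumsHave_of_gen hc h.semisimple hP fun N' hN => ?_
    rcases hN with h1 | ⟨Y, n, hY, rfl⟩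
    · exact FactorOfSum.self hc (Or.inl h1)
    · refine (sp_weight_iff h.weight h.generated (tw_gen h _) ?_ N).mpr ?_ Y hY n
      · exact fun N' n => FactorOfSum.self hc (Or.inl ⟨N', n, rfl⟩)
      · exact fun a b c T n => FactorOfSum.self hc (Or.inr ⟨a, b, c, T, n, rfl⟩)

/-- The same over a prime field, with hypergraphs. -/
theorem wsums_graph (hF : Frac k) (N : ℤ) :
    SumsHave (zeroData D) (fun N' => OfPt D N' ∨ OfProjW D N N') P ↔
      SumsHave (zeroData D) (fun N' => OfPt D N' ∨ OfGraphsW D N N') P := by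
  have hc := zero_compact h.weight
  constructor
  · refine sumsHave_of_gen hc h.semisimple hP fun N' hN => ?_
    rcases hN with h1 | ⟨a, b, c, T, n, rfl⟩
    · exact FactorOfSum.self hc (Or.inl h1)
    · refine (sp_weight_graph h.weight h.generated (tw_gen h _) ?_ hF N).mp ?_ a b c T n
      · exact fun N' n => FactorOfSum.self hc (Or.inl ⟨N', n, rfl⟩)
      · exact fun Y hY n => FactorOfSum.self hc (Or.inr ⟨Y, n, hY, rfl⟩)
  · refine sumsHave_of_gen hc h.semisimple hP fun N' hN => ?_
    rcases hN with h1 | ⟨Y, n, hY, rfl⟩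
    · exact FactorOfSum.self hc (Or.inl h1)
    · refine (sp_weight_graph h.weight h.generated (tw_gen h _) ?_ hF N).mpr ?_ Y hY n
      · exact fun N' n => FactorOfSum.self hc (Or.inl ⟨N', n, rfl⟩)
      · exact fun a b c T n => FactorOfSum.self hc (Or.inr ⟨a, b, c, T, n, rfl⟩)

end

section

variable {k : Type} [Field k] {M : Type u} [Category.{v} M] [Abelian M] {V : Type}

/-- Every smooth projective scheme has a large set of places in the index `N`. -/
def ProjAt (D : WeightData k M) (ord : M → Set V) (L : Set V → Prop) (N : ℤ) : Prop :=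
  ∀ (Y : Sch k) (n : ℤ), SmoothProj Y → L (ord (D.H N n Y))

/-- Finite families of hypersurfaces `T = 1` have large sets of common places in the indices
`N + a - 1`, where `a` is the number of the variables `x`. -/
def FormsAt (D : WeightData k M) (ord : M → Set V) (L : Set V → Prop) (N : ℤ) : Prop :=
  ∀ (J : Type) [Finite J] (a b c : J → ℕ) (T : ∀ j, Fin (a j) → Fin (b j) → Fin (c j) → k)
    (n : J → ℤ), L (⋂ j, ord (D.H (N + (a j - 1)) (n j) (hypS (T j))))

/-- The same for the hypersurfaces of tripartite hypergraphs. -/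
def GraphsAt (D : WeightData k M) (ord : M → Set V) (L : Set V → Prop) (N : ℤ) : Prop :=
  ∀ (J : Type) [Finite J] (a b c : J → ℕ) (H : ∀ j, Finset (Fin (a j) × Fin (b j) × Fin (c j)))
    (n : J → ℤ), L (⋂ j, ord (D.H (N + (a j - 1)) (n j) (tripS k (H j))))

variable {D : WeightData k M} {ord : M → Set V} {L : Set V → Prop} (h : IsWMotives D)
  (hO : IsWPlace D ord) (hL : Large L)

include h hO hL

lemma proj_at_iff (N : ℤ) : ProjAt D ord L N ↔
    SumsHave (zeroData D) (fun N' => OfPt D N' ∨ OfProjW D N N') (fun N' => L (ord N')) := by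
  rw [sums_ord h.weight hO hL (Pt := OfPt D) (by rintro _ ⟨N', n, rfl⟩; exact hO.point N' n)]
  constructor
  · intro h1 J _ N' hN'
    choose Y n hY hN' using hN'
    obtain ⟨X, m, hX, h2⟩ := hO.union N J Y n hY
    refine hL.of_diff (h1 X m hX) (diff_iInter fun j => ?_)
    rw [hN' j]
    exact h2 j
  · intro h1 Y n hY
    have h2 := h1 Unit (fun _ => D.H N n Y) fun _ => ⟨Y, n, hY, rfl⟩
    rwa [Set.iInter_const] at h2

/-- **Smooth projective schemes and trilinear forms, one weight.** -/
theorem forms_at_iff (N : ℤ) : ProjAt D ord L N ↔ FormsAt D ord L N := by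
  have hP : ∀ {X Y : M} (i : X ⟶ Y) (r : Y ⟶ X), i ≫ r = 𝟙 X → L (ord Y) → L (ord X) :=
    fun i r e hN => hL.of_diff hN (hO.factor i r e)
  rw [proj_at_iff h hO hL, wsums_iff h hP,
    sums_ord h.weight hO hL (Pt := OfPt D) (by rintro _ ⟨N', n, rfl⟩; exact hO.point N' n)]
  constructor
  · intro h1 J _ a b c T n
    exact h1 J (fun j => D.H (N + (a j - 1)) (n j) (hypS (T j))) fun j =>
      ⟨a j, b j, c j, T j, n j, rfl⟩
  · intro h1 J _ N' hN'
    choose a b c T n hN' using hN'
    have h2 := h1 J a b c T n
    rwa [show N' = fun j => D.H (N + (a j - 1)) (n j) (hypS (T j)) from funext hN']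

/-- **Smooth projective schemes and hypergraphs, one weight.** -/
theorem graphs_at_iff (hF : Frac k) (N : ℤ) : ProjAt D ord L N ↔ GraphsAt D ord L N := by
  have hP : ∀ {X Y : M} (i : X ⟶ Y) (r : Y ⟶ X), i ≫ r = 𝟙 X → L (ord Y) → L (ord X) :=
    fun i r e hN => hL.of_diff hN (hO.factor i r e)
  rw [proj_at_iff h hO hL, wsums_graph h hP hF,
    sums_ord h.weight hO hL (Pt := OfPt D) (by rintro _ ⟨N', n, rfl⟩; exact hO.point N' n)]
  constructor
  · intro h1 J _ a b c T n
    exact h1 J (fun j => D.H (N + (a j - 1)) (n j) (tripS k (T j))) fun j =>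
      ⟨a j, b j, c j, T j, n j, rfl⟩
  · intro h1 J _ N' hN'
    choose a b c T n hN' using hN'
    have h2 := h1 J a b c T n
    rwa [show N' = fun j => D.H (N + (a j - 1)) (n j) (tripS k (T j)) from funext hN']

omit hL in
/-- If almost all places are places for smooth projective schemes in the index `N`, this is true for the
hypersurfaces in the indices `N + a - 1`. -/
theorem almost_all_at (N : ℤ)
    (h0 : ∀ (Y : Sch k) (n : ℤ), SmoothProj Y → (Set.univ \ ord (D.H N n Y)).Finite)
    {a b c : ℕ} (T : Fin a → Fin b → Fin c → k) (n : ℤ) :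
    (Set.univ \ ord (D.H (N + (a - 1)) n (hypS T))).Finite := by
  have hL : Large fun S : Set V => (Set.univ \ S).Finite :=
    ⟨fun h hST => h.subset fun x hx => ⟨trivial, fun hxS => hx.2 (hST hxS)⟩, fun {S F} h hF =>
      (h.union hF).subset fun x hx => by
        by_cases hxS : x ∈ S
        · exact Or.inr (by_contra fun hxF => hx.2 ⟨hxS, hxF⟩)
        · exact Or.inl ⟨trivial, hxS⟩⟩
  have h1 := (forms_at_iff h hO hL N).1 h0 Unit (fun _ => a) (fun _ => b) (fun _ => c)
    (fun _ => T) fun _ => n
  rwa [Set.iInter_const] at h1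

end

section IH

variable {k F : Type} [Field k] [Field F] {M : Type u} [Category.{v} M] [Abelian M] {V : Type}

/-- The standard properties of the motives `IH X` of the intersection cohomology in one degree `m` of the
projective schemes `X` over `F`, where the index `N` of `D` is the weight `m`:

* `factor`: `IH X` is a direct factor of `D.H N n Y` for a smooth projective `Y` over `k` (decomposition
  theorem, restriction of scalars);
* `smooth`: for smooth projective `Y` over `k` the places for `IH (Y_F)` are places for `D.H N n Y`, up to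
  finitely many. -/
structure IsIHAt (D : WeightData k M) (ord : M → Set V) (IH : Sch F → M) (N : ℤ) : Prop where
  factor : ∀ X : Sch F, IsProj X → ∃ (Y : Sch k) (n : ℤ), SmoothProj Y ∧
    ∃ (f : IH X ⟶ D.H N n Y) (r : D.H N n Y ⟶ IH X), f ≫ r = 𝟙 _
  smooth : ∀ (Y : Sch k) (n : ℤ), SmoothProj Y → ∃ X : Sch F, IsProj X ∧
    (ord (IH X) \ ord (D.H N n Y)).Finite

theorem ih_at_iff {D : WeightData k M} {ord : M → Set V} (hO : IsWPlace D ord) {L : Set V → Prop}
    (hL : Large L) {IH : Sch F → M} {N : ℤ} (hI : IsIHAt D ord IH N) :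
    (∀ X : Sch F, IsProj X → L (ord (IH X))) ↔ ProjAt D ord L N := by
  constructor
  · intro h Y n hY
    obtain ⟨X, hX, h1⟩ := hI.smooth Y n hY
    exact hL.of_diff (h X hX) h1
  · intro h X hX
    obtain ⟨Y, n, hY, f, r, hfr⟩ := hI.factor X hX
    exact hL.of_diff (h Y n hY) (hO.factor f r hfr)

end IH

end Pool.Agent.Q137.UO
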