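import Pool.Agent.Q137.UO.WOrd

/-!
# Finite direct sums of motives with weights in a set
-/

set_option autoImplicit false

open CategoryTheory CategoryTheory.Limits AlgebraicGeometry Pool.Agent.Y116.UV Pool.Agent.Z125.UN
  Pool.Agent.Q193.LT Pool.Agent.Q49.WU

universe v u

namespace Pool.Agent.Q137.UO

attribute [local instance] Abelian.hasFiniteBiproducts

variable {k : Type} [Field k] {M : Type u} [Category.{v} M] [Abelian M]

/-- the objects of the point, and those of an index in `S` of smooth projective schemes -/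
def OfProjS (D : WeightData k M) (S : ℤ → Prop) (N' : M) : Prop :=
  OfPt D N' ∨ ∃ N : ℤ, S N ∧ OfProjW D N N'

/-- the objects of the point, and those of an index `N + a - 1`, `N` in `S`, of the hypersurfaces of forms
with `a` variables `x` -/
def OfFormsS (D : WeightData k M) (S : ℤ → Prop) (N' : M) : Prop :=
  OfPt D N' ∨ ∃ N : ℤ, S N ∧ OfFormsW D N N'

/-- the objects of the point, and those of an index `N + a - 1`, `N` in `S`, of the hypersurfaces of
hypergraphs with `a` variables `x` -/
def OfGraphsS (D : WeightData k M) (S : ℤ → Prop) (N' : M) : Prop :=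
  OfPt D N' ∨ ∃ N : ℤ, S N ∧ OfGraphsW D N N'

variable {D : WeightData k M} (h : IsWMotives D) {P : M → Prop}
  (hP : ∀ {X Y : M} (i : X ⟶ Y) (r : Y ⟶ X), i ≫ r = 𝟙 X → P Y → P X)

include h hP

/-- Finite direct sums: smooth projective schemes and trilinear forms, indices in a set. -/
theorem set_iff (S : ℤ → Prop) :
    SumsHave (zeroData D) (OfProjS D S) P ↔ SumsHave (zeroData D) (OfFormsS D S) P := by
  have hc := zero_compact h.weight
  constructor
  · refine sumsHave_of_gen hc h.semisimple hP fun N' hN => ?_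
    rcases hN with h1 | ⟨N, hS, a, b, c, T, n, rfl⟩
    · exact FactorOfSum.self hc (Or.inl h1)
    · refine (sp_weight_iff h.weight h.generated (tw_gen h _) ?_ N).mp ?_ a b c T n
      · exact fun N' n => FactorOfSum.self hc (Or.inl ⟨N', n, rfl⟩)
      · exact fun Y hY n => FactorOfSum.self hc (Or.inr ⟨N, hS, Y, n, hY, rfl⟩)
  · refine sumsHave_of_gen hc h.semisimple hP fun N' hN => ?_
    rcases hN with h1 | ⟨N, hS, Y, n, hY, rfl⟩
    · exact FactorOfSum.self hc (Or.inl h1)
    · refine (sp_weight_iff h.weight h.generated (tw_gen h _) ?_ N).mpr ?_ Y hY n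
      · exact fun N' n => FactorOfSum.self hc (Or.inl ⟨N', n, rfl⟩)
      · exact fun a b c T n => FactorOfSum.self hc (Or.inr ⟨N, hS, a, b, c, T, n, rfl⟩)

/-- The same over a prime field, with hypergraphs. -/
theorem set_graph (hF : Frac k) (S : ℤ → Prop) :
    SumsHave (zeroData D) (OfProjS D S) P ↔ SumsHave (zeroData D) (OfGraphsS D S) P := by
  have hc := zero_compact h.weight
  constructor
  · refine sumsHave_of_gen hc h.semisimple hP fun N' hN => ?_
    rcases hN with h1 | ⟨N, hS, a, b, c, T, n, rfl⟩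
    · exact FactorOfSum.self hc (Or.inl h1)
    · refine (sp_weight_graph h.weight h.generated (tw_gen h _) ?_ hF N).mp ?_ a b c T n
      · exact fun N' n => FactorOfSum.self hc (Or.inl ⟨N', n, rfl⟩)
      · exact fun Y hY n => FactorOfSum.self hc (Or.inr ⟨N, hS, Y, n, hY, rfl⟩)
  · refine sumsHave_of_gen hc h.semisimple hP fun N' hN => ?_
    rcases hN with h1 | ⟨N, hS, Y, n, hY, rfl⟩
    · exact FactorOfSum.self hc (Or.inl h1)
    · refine (sp_weight_graph h.weight h.generated (tw_gen h _) ?_ hF N).mpr ?_ Y hY n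
      · exact fun N' n => FactorOfSum.self hc (Or.inl ⟨N', n, rfl⟩)
      · exact fun a b c T n => FactorOfSum.self hc (Or.inr ⟨N, hS, a, b, c, T, n, rfl⟩)

/-- Indices at most `N₀`: the hypersurfaces `T = 1` with `a` variables `x` in the indices at most
`N₀ + a - 1`. -/
theorem low_set {N₀ : ℤ} (low : SumsHave (zeroData D) (OfProjS D (· ≤ N₀)) P)
    (J : Type) [Finite J] (a b c : J → ℕ) (T : ∀ j, Fin (a j) → Fin (b j) → Fin (c j) → k)
    (m n t : J → ℤ) (hm : ∀ j, m j ≤ N₀ + (a j - 1)) :
    P (⨁ fun j => (D.tw (t j)).obj (D.H (m j) (n j) (hypS (T j)))) := by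
  refine (set_iff h hP _).mp low J (fun j => D.H (m j) (n j) (hypS (T j))) t fun j =>
    Or.inr ⟨m j - (a j - 1), by linarith [hm j], a j, b j, c j, T j, n j, ?_⟩
  rw [sub_add_cancel]

end Pool.Agent.Q137.UO
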